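import Pool.Agent.Run7.h225.HP.Iface2
import Pool.Agent.Run7.h704.HP.IND

/-! Project HPL (helper225), piece LIN (helper930): the polylogarithms are linearly independent over
the ring of polynomials in `z` and the functions `h`. -/

set_option autoImplicit false
set_option linter.all false

open PowerSeries
open Pool.Agent.Y119.ML
open Pool.Agent.W924.LF (eul coeff_eul)

namespace Pool.Agent.Run7.h930.HP

open Pool.Agent.Run7.h225.HP Pool.Agent.Run7.h704.HP

attribute [-instance] HahnSeries.powerSeriesAlgebra

theorem g_zero {N : ℕ} (h : Fin N → ℚ⟦X⟧) {T : Polynomial ℚ} {A : Fin N → Fin N → Polynomial ℚ}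
    (hT : T ≠ 0) (hA : ∀ i, (T : ℚ⟦X⟧) * d⁄dX ℚ (h i) = ∑ j, (A i j : ℚ⟦X⟧) * h j) (hN : NoLog h)
    (W : ℕ) (P : Idx W → MvPolynomial (Fin N) (Polynomial ℚ))
    (hP : ∑ s, MvPolynomial.aeval h (P s) * li s.1 = 0) : ∀ s, MvPolynomial.aeval h (P s) = 0 := by
  classical
  have hg0 : ∀ s : Idx W, E h (P s) = 0 := by
    refine graded_indep (eul : Derivation ℚ FF FF) (Kh h) (eul_Kh h hT hA) uu ?_
      (fun c g hc hc0 hg he => hprim h hN c g hc hc0 hg he) (fun b : Idx W => b.1.sum)
      (fun b => io (li b.1)) nn nn_deg hf ?_ (fun m l _ _ hl hs => hnd m l hl hs)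
      (fun s => E h (P s)) ?_ ?_
    · intro i
      cases i
      · exact one_mem _
      · show io (X * geo 1) ∈ Kh h
        rw [geo_pio]
        exact div_mem (pio_mem' h _) (pio_mem' h _)
    · intro g hg hgd hs b
      by_cases hb : b.1.sum ≠ 0
      · exact hgd b hb
      · push Not at hb
        have hnil : ∀ b : Idx W, b.1.sum = 0 → b.1 = [] := by
          intro b hb
          rcases idx_cases b with h | ⟨a, l, h⟩ | ⟨l, h⟩
          · exact h
          · rw [h, List.sum_cons] at hb
            omega
          · rw [h, List.sum_cons] at hb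
            omega
        rw [Finset.sum_eq_single b] at hs
        · rw [hnil b hb, li_nil, map_one, mul_one] at hs
          exact hs
        · intro b' _ hne
          rw [hgd b', zero_mul]
          intro hb'
          exact hne (Subtype.ext ((hnil b' hb').trans (hnil b hb).symm))
        · intro hn
          exact absurd (Finset.mem_univ _) hn
    · intro s
      exact E_mem h _
    · have h1 := congrArg io hP
      rw [map_zero, map_sum] at h1
      rw [← h1]
      refine Finset.sum_congr rfl fun s _ => ?_
      rw [E_apply, map_mul]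
  intro s
  apply io_inj
  rw [map_zero, ← hg0 s, E_apply]

theorem p_LIN : S_LIN := by
  classical
  intro hWORD N h T A hT hA hN q hq hsum w
  -- a bound for the lengths
  set W : ℕ := q.support.sup List.length with hW
  obtain ⟨e, he⟩ := hWORD W
  have key : ∑ s : Idx W, MvPolynomial.aeval h (q (e s).1) * li s.1 = 0 := by
    rw [← hsum]
    have h1 : ∀ s : Idx W, MvPolynomial.aeval h (q (e s).1) * li s.1 =
        (fun w : Wd W => MvPolynomial.aeval h (q w.1) * lw w.1) (e s) := by
      intro s
      show _ = MvPolynomial.aeval h (q (e s).1) * lw (e s).1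
      rw [he s]
    rw [Finset.sum_congr rfl fun s _ => h1 s,
      Equiv.sum_comp e (fun w : Wd W => MvPolynomial.aeval h (q w.1) * lw w.1), Finsupp.sum]
    have h2 : ∑ w : Wd W, MvPolynomial.aeval h (q w.1) * lw w.1 =
        ∑ w ∈ (Finset.univ : Finset (Wd W)).image Subtype.val, MvPolynomial.aeval h (q w) * lw w := by
      rw [Finset.sum_image]
      intro a _ b _ hab
      exact Subtype.ext hab
    rw [h2]
    symm
    apply Finset.sum_subset
    · intro w hw
      rw [Finset.mem_image]
      exact ⟨⟨w, Finset.le_sup (f := List.length) hw, hq w hw⟩, Finset.mem_univ _, rfl⟩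
    · intro w _ hw
      rw [Finsupp.notMem_support_iff.1 hw, map_zero, zero_mul]
  have h3 := g_zero h hT hA hN W (fun s => q (e s).1) key
  by_cases hw : w ∈ q.support
  · have h4 := h3 (e.symm ⟨w, Finset.le_sup (f := List.length) hw, hq w hw⟩)
    simpa using h4
  · rw [Finsupp.notMem_support_iff.1 hw, map_zero]

end Pool.Agent.Run7.h930.HP
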