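import Pool.Agent.Run7.h225.HP.Iface2

/-! Project HPL (helper225), piece SHUF (helper930): the shuffle relations. -/

set_option autoImplicit false

open PowerSeries

namespace Pool.Agent.Run7.h930.HP

open Pool.Agent.Run7.h225.HP

theorem coeff_lw (w : List Bool) (k : ℕ) : coeff k (lw w) = cw w k := by
  unfold lw
  rw [coeff_mk]

theorem lw_nil : lw [] = 1 := by
  ext k
  rw [coeff_lw, coeff_one]
  rfl

theorem cw_zero {w : List Bool} (hw : w ≠ []) : cw w 0 = 0 := by
  rcases w with _ | ⟨a, w⟩
  · exact absurd rfl hw
  · cases a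
    · show cw w 0 / ((0 : ℕ) : ℚ) = 0
      simp
    · show (∑ j ∈ Finset.range 0, cw w j) / ((0 : ℕ) : ℚ) = 0
      simp

/-- the forms -/
noncomputable def phi : Bool → ℚ⟦X⟧
  | false => 1
  | true => PowerSeries.mk fun k => if k = 0 then 0 else 1

theorem th_coeff (f : ℚ⟦X⟧) (k : ℕ) : coeff k (X * d⁄dX ℚ f) = k * coeff k f := by
  cases k with
  | zero => simp
  | succ n =>
    rw [mul_comm X, coeff_succ_mul_X, coeff_derivative]
    push_cast
    ring

theorem th_cons {a : Bool} {u : List Bool} (h : Adm (a :: u)) :
    X * d⁄dX ℚ (lw (a :: u)) = phi a * lw u := by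
  ext k
  rw [th_coeff, coeff_lw]
  cases a
  · have hu : u ≠ [] := by
      rintro rfl
      exact h rfl
    show (k : ℚ) * (cw u k / k) = _
    simp only [phi]
    rw [one_mul, coeff_lw]
    rcases Nat.eq_zero_or_pos k with rfl | hk
    · rw [cw_zero hu]; simp
    · have : (k : ℚ) ≠ 0 := by positivity
      field_simp
  · show (k : ℚ) * ((∑ j ∈ Finset.range k, cw u j) / k) = _
    rcases Nat.eq_zero_or_pos k with rfl | hk
    · simp [phi]
    · have : (k : ℚ) ≠ 0 := by positivity
      rw [mul_div_cancel₀ _ this, coeff_mul,
        Finset.Nat.sum_antidiagonal_eq_sum_range_succ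
          (fun i j => coeff i (phi true) * coeff j (lw u)),
        Finset.sum_range_succ', ← Finset.sum_range_reflect]
      simp only [phi, coeff_mk, if_true, zero_mul, add_zero]
      refine Finset.sum_congr rfl fun j hj => ?_
      rw [Finset.mem_range] at hj
      rw [coeff_lw, if_neg (by omega), one_mul]
      congr 1
      omega

theorem eq_of_th {f g : ℚ⟦X⟧} (h0 : constantCoeff f = constantCoeff g)
    (h : X * d⁄dX ℚ f = X * d⁄dX ℚ g) : f = g := by
  ext k
  rcases Nat.eq_zero_or_pos k with rfl | hk
  · rw [coeff_zero_eq_constantCoeff_apply, coeff_zero_eq_constantCoeff_apply, h0]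
  · have h1 := congrArg (coeff k) h
    rw [th_coeff, th_coeff] at h1
    have : (k : ℚ) ≠ 0 := by positivity
    exact mul_left_cancel₀ this h1

theorem lw_const {w : List Bool} (hw : w ≠ []) : constantCoeff (lw w) = 0 := by
  rw [← coeff_zero_eq_constantCoeff_apply, coeff_lw, cw_zero hw]

/-- the derivation -/
noncomputable def th : ℚ⟦X⟧ →+ ℚ⟦X⟧ where
  toFun f := X * d⁄dX ℚ f
  map_zero' := by simp
  map_add' f g := by rw [map_add, mul_add]

theorem th_apply (f : ℚ⟦X⟧) : th f = X * d⁄dX ℚ f := rfl

theorem th_mul (f g : ℚ⟦X⟧) : th (f * g) = th f * g + f * th g := by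
  rw [th_apply, th_apply, th_apply, Derivation.leibniz, smul_eq_mul, smul_eq_mul]
  ring

theorem shuf (n : ℕ) : ∀ u v : List Bool, u.length + v.length ≤ n → Adm u → Adm v →
    lw u * lw v = ((sh u v).map lw).sum := by
  induction n with
  | zero =>
    intro u v h _ _
    have hu : u = [] := List.length_eq_zero_iff.1 (by omega)
    have hv : v = [] := List.length_eq_zero_iff.1 (by omega)
    subst hu
    subst hv
    rw [sh, lw_nil]
    simp [lw_nil]
  | succ n ih =>
    intro u v h hu hv
    rcases u with _ | ⟨a, u⟩
    · rw [sh, lw_nil]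
      simp
    rcases v with _ | ⟨b, v⟩
    · rw [sh, lw_nil]
      simp
    have hu' := Adm_cons hu
    have hv' := Adm_cons hv
    simp only [List.length_cons] at h
    have h1 := ih u (b :: v) (by simp only [List.length_cons]; omega) hu' hv
    have h2 := ih (a :: u) v (by simp only [List.length_cons]; omega) hu hv'
    have e1 : ∀ w ∈ sh u (b :: v), th (lw (a :: w)) = phi a * lw w := by
      intro w hw
      refine th_cons (Adm_of_ne (sh_adm hu' hv hw) ?_)
      rintro rfl
      have := sh_length hw
      simp at this
    have e2 : ∀ w ∈ sh (a :: u) v, th (lw (b :: w)) = phi b * lw w := by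
      intro w hw
      refine th_cons (Adm_of_ne (sh_adm hu hv' hw) ?_)
      rintro rfl
      have := sh_length hw
      simp only [List.length_nil, List.length_cons] at this
      omega
    apply eq_of_th
    · rw [map_mul, lw_const (List.cons_ne_nil a u), zero_mul, map_list_sum, List.map_map]
      symm
      apply List.sum_eq_zero
      intro z hz
      obtain ⟨w, hw, rfl⟩ := List.mem_map.1 hz
      refine lw_const ?_
      rintro rfl
      have := sh_length hw
      simp at this
    · rw [← th_apply, ← th_apply, th_mul, th_apply (lw (a :: u)), th_cons hu, th_apply (lw (b :: v)),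
        th_cons hv, sh, List.map_append, List.sum_append, map_add, List.map_map, List.map_map,
        map_list_sum, map_list_sum, List.map_map, List.map_map]
      have e3 : (List.map (th ∘ lw ∘ fun x => a :: x) (sh u (b :: v))).sum =
          phi a * ((sh u (b :: v)).map lw).sum := by
        rw [← List.sum_map_mul_left]
        congr 1
        exact List.map_congr_left fun w hw => e1 w hw
      have e4 : (List.map (th ∘ lw ∘ fun x => b :: x) (sh (a :: u) v)).sum =
          phi b * ((sh (a :: u) v).map lw).sum := by
        rw [← List.sum_map_mul_left]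
        congr 1
        exact List.map_congr_left fun w hw => e2 w hw
      rw [e3, e4, ← h1, ← h2]
      ring

theorem p_SHUF : S_SHUF where
  one := lw_nil
  mul := fun u v hu hv => shuf _ u v le_rfl hu hv

end Pool.Agent.Run7.h930.HP
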